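import Mathlib

/-!
# Regulator pairings of Chow motives: definitions
-/

set_option autoImplicit false

open CategoryTheory Opposite

namespace Pool.Agent.U483.KW

universe y z

/-- Motivic cohomology, Betti homology (with a sign for complex conjugation) and the bilinear regulator pairing
`(γ, α) ↦ ⟨γ, reg(α)⟩` (divided by a power of `2πi`) for Chow motives, compatible with the morphisms. -/
structure Regulators (𝒞 : Type y) [Category.{z} 𝒞] where
  /-- motivic cohomology -/
  mot : 𝒞 ⥤ ModuleCat.{0} ℚ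
  /-- Betti homology -/
  hom : 𝒞ᵒᵖ ⥤ ModuleCat.{0} ℚ
  /-- the regulator pairing -/
  pair : ∀ A : 𝒞, hom.obj (op A) →ₗ[ℚ] mot.obj A →ₗ[ℚ] ℝ
  natural : ∀ {A B : 𝒞} (f : A ⟶ B) (γ : hom.obj (op B)) (α : mot.obj A),
    pair B γ ((mot.map f).hom α) = pair A ((hom.map f.op).hom γ) α

variable {𝒞 : Type y} [Category.{z} 𝒞]

/-- For all nonzero `α` and all generators `γ` of the (one-dimensional) Betti homology the regulator is a nonzero
rational multiple of `l`. -/
def Regulators.Beilinson (R : Regulators.{y, z} 𝒞) (A : 𝒞) (l : ℝ) : Prop :=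
  ∀ α : R.mot.obj A, α ≠ 0 → ∀ γ : R.hom.obj (op A), Submodule.span ℚ {γ} = ⊤ →
    ∃ a : ℚ, a ≠ 0 ∧ R.pair A γ α = a * l

/-- Weak form: some `α` and some generator `γ` give a nonzero rational multiple of `l`. -/
def Regulators.Weak (R : Regulators.{y, z} 𝒞) (A : 𝒞) (l : ℝ) : Prop :=
  ∃ α : R.mot.obj A, ∃ γ : R.hom.obj (op A), Submodule.span ℚ {γ} = ⊤ ∧
    ∃ a : ℚ, a ≠ 0 ∧ R.pair A γ α = a * l

end Pool.Agent.U483.KW
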