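import Pool.Agent.U483.KW.Defs
import Mathlib

/-!
# Regulator pairings of Chow motives
-/

set_option autoImplicit false

open CategoryTheory Opposite Module

namespace Pool.Agent.U483.KW

universe y z

variable {𝒞 : Type y} [Category.{z} 𝒞]

theorem weak_iso (R : Regulators.{y, z} 𝒞) {A B : 𝒞} (e : A ≅ B) {l : ℝ} (h : R.Weak A l) :
    R.Weak B l := by
  obtain ⟨ξ, γ, hγ, a, ha, h1⟩ := h
  have h4 : (R.hom.map e.hom.op).hom ((R.hom.map e.inv.op).hom γ) = γ := by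
    have h2 : R.hom.map e.inv.op ≫ R.hom.map e.hom.op = 𝟙 _ := by
      rw [← R.hom.map_comp, ← op_comp, e.hom_inv_id, op_id, R.hom.map_id]
    exact congrArg (fun u => (ModuleCat.Hom.hom u) γ) h2
  refine ⟨(R.mot.map e.hom).hom ξ, (R.hom.map e.inv.op).hom γ, ?_, a, ha, ?_⟩
  · have h5 : Function.Surjective (R.hom.map e.inv.op).hom := by
      intro y
      refine ⟨(R.hom.map e.hom.op).hom y, ?_⟩
      have h2 : R.hom.map e.hom.op ≫ R.hom.map e.inv.op = 𝟙 _ := by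
        rw [← R.hom.map_comp, ← op_comp, e.inv_hom_id, op_id, R.hom.map_id]
      exact congrArg (fun u => (ModuleCat.Hom.hom u) y) h2
    have h6 := Submodule.map_span (R.hom.map e.inv.op).hom {γ}
    rw [hγ, Submodule.map_top, LinearMap.range_eq_top.2 h5, Set.image_singleton] at h6
    exact h6.symm
  · rw [R.natural, h4, h1]

theorem finrank_mot_iso (R : Regulators.{y, z} 𝒞) {A B : 𝒞} (e : A ≅ B) :
    finrank ℚ (R.mot.obj A) = finrank ℚ (R.mot.obj B) :=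
  ((R.mot.mapIso e).toLinearEquiv).finrank_eq

theorem beilinson_iff (R : Regulators.{y, z} 𝒞) (A : 𝒞) {l : ℝ} (hl : l ≠ 0) (hW : R.Weak A l) :
    R.Beilinson A l ↔ finrank ℚ (R.mot.obj A) = 1 := by
  obtain ⟨ξ₁, γ₁, hγ₁, a₁, ha₁, h1⟩ := hW
  have ha₁' : (a₁ : ℝ) ≠ 0 := by exact_mod_cast ha₁
  have hξ₁ : ξ₁ ≠ 0 := by
    rintro rfl
    rw [map_zero] at h1
    exact (mul_ne_zero ha₁' hl) h1.symm
  constructor
  · intro h
    refine finrank_eq_one ξ₁ hξ₁ fun ξ => ?_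
    by_cases hξ : ξ = 0
    · exact ⟨0, by rw [hξ, zero_smul]⟩
    obtain ⟨a, _, h2⟩ := h ξ hξ γ₁ hγ₁
    refine ⟨a / a₁, ?_⟩
    by_contra hne
    have h3 : ξ - (a / a₁) • ξ₁ ≠ 0 := fun h0 => hne (sub_eq_zero.1 h0).symm
    obtain ⟨b, hb, h4⟩ := h _ h3 γ₁ hγ₁
    rw [map_sub, map_smul, h2, h1, Rat.smul_def] at h4
    have hb' : (b : ℝ) ≠ 0 := by exact_mod_cast hb
    apply mul_ne_zero hb' hl
    rw [← h4]
    push_cast
    field_simp
    ring
  · intro h ξ hξ γ hγ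
    obtain ⟨c, hc⟩ := (finrank_eq_one_iff_of_nonzero' ξ₁ hξ₁).1 h ξ
    have hc0 : c ≠ 0 := by
      rintro rfl
      rw [zero_smul] at hc
      exact hξ hc.symm
    have hmem : γ ∈ Submodule.span ℚ {γ₁} := by rw [hγ₁]; trivial
    obtain ⟨d, hd⟩ := Submodule.mem_span_singleton.1 hmem
    have hγ₁0 : γ₁ ≠ 0 := by
      rintro rfl
      rw [map_zero, LinearMap.zero_apply] at h1
      exact (mul_ne_zero ha₁' hl) h1.symm
    have hd0 : d ≠ 0 := by
      rintro rfl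
      rw [zero_smul] at hd
      rw [← hd, Submodule.span_zero_singleton] at hγ
      have h5 : γ₁ ∈ (⊥ : Submodule ℚ (R.hom.obj (op A))) := by rw [hγ]; trivial
      exact hγ₁0 ((Submodule.mem_bot ℚ).1 h5)
    refine ⟨d * (c * a₁), mul_ne_zero hd0 (mul_ne_zero hc0 ha₁), ?_⟩
    rw [← hc, ← hd]
    simp only [map_smul, LinearMap.smul_apply, h1, Rat.smul_def]
    push_cast
    ring

end Pool.Agent.U483.KW
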